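import Pool.Agent.H48.RG.Targets

/-! Row DE2 of part D of the regularity theorem (MP_2697e3_an): the divergence free part of the
rotated gradient. -/

set_option autoImplicit false

namespace Pool.Agent.H84.RG

open MeasureTheory Metric Set Filter Topology Pool.Agent.H48.RG Pool.Agent.H87.SN
open scoped ContDiff RealInnerProductSpace ENNReal

theorem inner_gradient {n : ℕ} (f : E n → ℝ) (x v : E n) : ⟪gradient f x, v⟫ = fderiv ℝ f x v := by
  unfold gradient
  exact InnerProductSpace.toDual_symm_apply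

theorem gradient_zero_of_off {n : ℕ} {ζ : E n → ℝ} {s : Set (E n)} (hs : tsupport ζ ⊆ s) {x : E n}
    (hx : x ∉ s) : ζ x = 0 ∧ gradient ζ x = 0 := by
  have hx' : x ∉ tsupport ζ := fun h => hx (hs h)
  refine ⟨image_eq_zero_of_notMem_tsupport hx', ?_⟩
  have h0 : fderiv ℝ ζ x = 0 := by
    have := (notMem_tsupport_iff_eventuallyEq (f := ζ)).1 hx'
    have h := this.fderiv_eq (𝕜 := ℝ)
    rw [h]
    simp
  unfold gradient
  rw [h0]
  simp

theorem continuous_gradient {n : ℕ} {ζ : E n → ℝ} (h : ContDiff ℝ ∞ ζ) :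
    Continuous (gradient ζ) := by
  unfold gradient
  exact (InnerProductSpace.toDual ℝ (E n)).symm.continuous.comp (h.continuous_fderiv (by simp))

theorem wc_zeta {n : ℕ} {ζ : E n → ℝ} {B : ℝ} (h : Cf ζ B) : WC (7 / 8) ζ (gradient ζ) := by
  have hc : HasCompactSupport ζ :=
    (isCompact_closedBall (0 : E n) (7 / 8)).of_isClosed_subset (isClosed_tsupport _) h.sp
  have hgc : HasCompactSupport (gradient ζ) := by
    refine HasCompactSupport.intro (isCompact_closedBall (0 : E n) (7 / 8)) ?_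
    intro x hx
    exact (gradient_zero_of_off h.sp hx).2
  refine ⟨⟨h.sm.continuous.aestronglyMeasurable, ⟨1, ?_⟩, ?_, ?_⟩, ?_⟩
  · refine Eventually.of_forall fun x => ?_
    rw [abs_le]
    constructor <;> linarith [(h.bd x).1, (h.bd x).2]
  · rw [Measure.restrict_univ]
    exact (continuous_gradient h.sm).memLp_of_hasCompactSupport hgc
  · intro φ hφ v
    have h1 : Integrable (fun x => fderiv ℝ φ x v * ζ x) := by
      refine Continuous.integrable_of_hasCompactSupport ?_ ?_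
      · exact ((hφ.1.continuous_fderiv (by simp)).clm_apply continuous_const).mul
          h.sm.continuous
      · exact hc.mul_left
    have h2 : Integrable (fun x => φ x * fderiv ℝ ζ x v) := by
      refine Continuous.integrable_of_hasCompactSupport ?_ ?_
      · exact hφ.1.continuous.mul
          ((h.sm.continuous_fderiv (by simp)).clm_apply continuous_const)
      · exact hφ.2.1.mul_right
    have h3 : Integrable (fun x => φ x * ζ x) := by
      refine Continuous.integrable_of_hasCompactSupport ?_ ?_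
      · exact hφ.1.continuous.mul h.sm.continuous
      · exact hφ.2.1.mul_right
    have key := integral_mul_fderiv_eq_neg_fderiv_mul_of_integrable (μ := (volume : Measure (E n)))
      (f := φ) (g := ζ) (v := v) h1 h2 h3 (fun x _ => (hφ.1.differentiable (by simp)) x)
      (fun x _ => (h.sm.differentiable (by simp)) x)
    simp only [inner_gradient]
    linarith
  · intro x hx
    exact gradient_zero_of_off h.sp hx

theorem wb_of_wc {n : ℕ} {ρ : ℝ} {f : E n → ℝ} {D : E n → E n} (h : WC ρ f D) (U : Set (E n)) :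
    WB U f D := by
  obtain ⟨B, hB⟩ := h.wb.bd
  refine ⟨?_, ⟨B, ?_⟩, ?_, ?_⟩
  · exact h.wb.ms.mono_measure (Measure.restrict_mono (subset_univ U) le_rfl)
  · rw [Measure.restrict_univ] at hB
    exact ae_restrict_of_ae hB
  · exact h.wb.d2.mono_measure (Measure.restrict_mono (subset_univ U) le_rfl)
  · intro φ hφ v
    exact h.wb.wg φ ⟨hφ.1, hφ.2.1, subset_univ _⟩ v

theorem wc_mono {n : ℕ} {ρ ρ' : ℝ} {f : E n → ℝ} {D : E n → E n} (h : WC ρ f D) (hr : ρ ≤ ρ') :
    WC ρ' f D :=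
  ⟨h.wb, fun x hx => h.off x fun hx' => hx (closedBall_subset_closedBall hr hx')⟩

section

variable {n : ℕ} {ζ : E n → ℝ} {B : ℝ}

theorem zeta_on (h : Cf ζ B) {x : E n} (hx : x ∈ closedBall (0 : E n) (3 / 4)) :
    ζ x = 1 ∧ gradient ζ x = 0 := by
  have hx' : x ∈ ball (0 : E n) (13 / 16) := by
    rw [mem_ball_zero_iff]
    rw [mem_closedBall_zero_iff] at hx
    linarith
  refine ⟨h.one x hx', ?_⟩
  have he : ζ =ᶠ[𝓝 x] fun _ => (1 : ℝ) := by
    filter_upwards [isOpen_ball.mem_nhds hx'] with y hy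
    exact h.one y hy
  unfold gradient
  rw [he.fderiv_eq]
  simp

theorem dm_on (h : Cf ζ B) (f : E n → ℝ) (D : E n → E n) {x : E n}
    (hx : x ∈ closedBall (0 : E n) (3 / 4)) : dm ζ f D x = D x := by
  unfold dm
  rw [(zeta_on h hx).1, (zeta_on h hx).2]
  simp

end

/-- the main identity -/
theorem ident {n : ℕ} {ζ : E n → ℝ} {B : ℝ} (hζ : Cf ζ B) (hI : T_IBG) (u p : E n → ℝ)
    (Du Dp H : E n → E n) (c c' : ℝ) (hH : Continuous H)
    (hH0 : ∀ x, x ∉ closedBall (0 : E n) (3 / 4) → H x = 0) (hDF : DF H)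
    (hb : WC (7 / 8) (fun x => ζ x * (u x - c)) (dm ζ (fun x => u x - c) Du))
    (hg : WC (7 / 8) (fun x => ζ x * (p x - c')) (dm ζ (fun x => p x - c') Dp))
    (hDu : MemLp Du 2 (volume.restrict (ball (0 : E n) 1)))
    (hpm : AEStronglyMeasurable p (volume.restrict (ball (0 : E n) 1)))
    (hpb : ∀ᵐ x ∂(volume.restrict (ball (0 : E n) 1)), |p x| ≤ 1) :
    IntegrableOn (fun x => p x * ⟪Du x, H x⟫) (ball (0 : E n) 1) ∧
    ∫ x in ball (0 : E n) 1, p x * ⟪Du x, H x⟫ =
      -∫ x, (ζ x * (u x - c)) * ⟪H x, dm ζ (fun x => p x - c') Dp x⟫ := by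
  have hsub : closedBall (0 : E n) (3 / 4) ⊆ ball (0 : E n) 1 := by
    intro x hx
    rw [mem_ball_zero_iff]
    rw [mem_closedBall_zero_iff] at hx
    linarith
  have hHc : HasCompactSupport H :=
    HasCompactSupport.intro (isCompact_closedBall (0 : E n) (3 / 4)) hH0
  have hHL : MemLp H 2 (volume : Measure (E n)) := hH.memLp_of_hasCompactSupport hHc
  have hHL1 : MemLp H 2 (volume.restrict (ball (0 : E n) 1)) := hHL.restrict _
  have hoff : ∀ x, x ∉ ball (0 : E n) 1 → H x = 0 := fun x hx => hH0 x fun h => hx (hsub h)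
  have hdf : ∀ φ, Tst (ball (0 : E n) 1) φ →
      ∫ x in ball (0 : E n) 1, fderiv ℝ φ x (H x) = 0 := by
    intro φ hφ
    rw [setIntegral_eq_integral_of_forall_compl_eq_zero]
    · exact hDF φ ⟨hφ.1, hφ.2.1, subset_univ _⟩
    · intro x hx
      rw [hoff x hx]
      simp
  have i1 : Integrable (fun x => ⟪H x, Du x⟫) (volume.restrict (ball (0 : E n) 1)) := by
    have hn : Integrable (fun x => ‖H x‖ * ‖Du x‖) (volume.restrict (ball (0 : E n) 1)) :=
      hHL1.norm.integrable_mul hDu.norm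
    refine hn.mono' (hHL1.1.inner hDu.1) (Eventually.of_forall fun x => ?_)
    exact norm_inner_le_norm _ _
  have i2 : Integrable (fun x => p x * ⟪H x, Du x⟫) (volume.restrict (ball (0 : E n) 1)) := by
    refine i1.bdd_mul (c := 1) hpm ?_
    filter_upwards [hpb] with x hx
    simpa [Real.norm_eq_abs] using hx
  have k1 := hI n H hHL1 hdf (7 / 8) _ _ _ _ (by norm_num) (by norm_num)
    (wb_of_wc hb (ball (0 : E n) 1)) hg
  have k2 := hI n H hHL1 hdf (7 / 8) _ _ _ _ (by norm_num) (by norm_num)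
    (wb_of_wc hb (ball (0 : E n) 1)) (wc_zeta hζ)
  have e1 : ∀ x, ζ x * (p x - c') * ⟪H x, dm ζ (fun x => u x - c) Du x⟫ =
      p x * ⟪H x, Du x⟫ - c' * ⟪H x, Du x⟫ := by
    intro x
    by_cases hx : x ∈ closedBall (0 : E n) (3 / 4)
    · rw [dm_on hζ _ _ hx, (zeta_on hζ hx).1]
      ring
    · rw [hH0 x hx]
      simp
  have e2 : ∀ x, ζ x * ⟪H x, dm ζ (fun x => u x - c) Du x⟫ = ⟪H x, Du x⟫ := by
    intro x
    by_cases hx : x ∈ closedBall (0 : E n) (3 / 4)
    · rw [dm_on hζ _ _ hx, (zeta_on hζ hx).1]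
      ring
    · rw [hH0 x hx]
      simp
  have e3 : ∀ x, ζ x * (u x - c) * ⟪H x, gradient ζ x⟫ = 0 := by
    intro x
    by_cases hx : x ∈ closedBall (0 : E n) (3 / 4)
    · rw [(zeta_on hζ hx).2]
      simp
    · rw [hH0 x hx]
      simp
  simp only [e1] at k1
  simp only [e2, e3] at k2
  rw [integral_zero, neg_zero] at k2
  rw [integral_sub i2 (i1.const_mul c'), integral_const_mul, k2, mul_zero, sub_zero] at k1
  have e4 : ∀ x, p x * ⟪Du x, H x⟫ = p x * ⟪H x, Du x⟫ := by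
    intro x
    rw [real_inner_comm]
  refine ⟨?_, ?_⟩
  · unfold IntegrableOn
    simp only [e4]
    exact i2
  · simp only [e4]
    rw [k1]
    congr 1
    rw [setIntegral_eq_integral_of_forall_compl_eq_zero]
    intro x hx
    rw [hoff x hx]
    simp

theorem pf_DE2 (hC : T_CF0) (hTr : T_TRI) (hM : T_MOB) (hB : T_POB) (_hE : T_EXT) (_hL : T_LEI)
    (hI : T_IBG) (hW : T_WWP) : T_DE2 := by
  intro n m K A hn hK hA
  obtain ⟨ζ, B, hB0, hζ⟩ := hC n
  obtain ⟨C, hC0, hCT⟩ := hTr n hn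
  obtain ⟨C1, hC10, hC1⟩ := hM n ζ B hn hB0 hζ
  obtain ⟨C2, hC20, hC2⟩ := hB n ζ B hB0 hζ
  set K1 : ℝ := 2 * (m : ℝ) ^ 2 * (K + 1) with hK1
  have hK10 : 0 ≤ K1 := by positivity
  refine ⟨m * (C * C1 * Real.sqrt A * Real.sqrt (C2 * K1)), 1 / (K1 + 1), by positivity,
    by positivity, ?_, ?_⟩
  · rw [div_le_one (by positivity)]
    linarith
  intro u D Om P DP M e hS hG hM0 hMor he0 he hen H hH hH0 hDF hHA j
  have he1 : e ≤ 1 := he.trans (by rw [div_le_one (by positivity)]; linarith)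
  have hKe : K1 * e ≤ 1 := by
    calc K1 * e ≤ K1 * (1 / (K1 + 1)) := by gcongr
      _ ≤ 1 := by
        rw [mul_one_div, div_le_one (by positivity)]
        linarith
  have hKe2 : K1 * e ^ 2 ≤ 1 := by
    calc K1 * e ^ 2 = (K1 * e) * e := by ring
      _ ≤ 1 * 1 := by gcongr
      _ = 1 := one_mul 1
  obtain ⟨w1, w2, w3, w4, w5⟩ := hW n m K u D Om P DP hS hG
  have hm1 : 1 ≤ m := by
    have := j.isLt
    omega
  have hm1' : (1 : ℝ) ≤ m := by exact_mod_cast hm1
  have hDP : ∀ k, ∫ x in ball (0 : E n) 1, ‖DP k j x‖ ^ 2 ≤ (K1 * e ^ 2) ^ 2 := by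
    intro k
    have a1 : ∫ x in ball (0 : E n) 1, ‖DP k j x‖ ^ 2 ≤
        ∑ i, ∑ j, ∫ x in ball (0 : E n) 1, ‖DP i j x‖ ^ 2 := by
      have b1 : ∫ x in ball (0 : E n) 1, ‖DP k j x‖ ^ 2 ≤
          ∑ j, ∫ x in ball (0 : E n) 1, ‖DP k j x‖ ^ 2 :=
        Finset.single_le_sum (f := fun j => ∫ x in ball (0 : E n) 1, ‖DP k j x‖ ^ 2)
          (fun j _ => integral_nonneg fun x => by positivity) (Finset.mem_univ j)
      refine b1.trans ?_
      exact Finset.single_le_sum
        (f := fun k => ∑ j, ∫ x in ball (0 : E n) 1, ‖DP k j x‖ ^ 2)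
        (fun k _ => Finset.sum_nonneg fun j _ => integral_nonneg fun x => by positivity)
        (Finset.mem_univ k)
    have a2 := a1.trans hG.le2
    have a3 : 4 * ∑ i, ∑ j, ∫ x in ball (0 : E n) 1, ‖Om i j x‖ ^ 2 ≤
        4 * (m ^ 3 * K ^ 2 * e ^ 4) := by
      have : ∑ i, ∑ j, ∫ x in ball (0 : E n) 1, ‖Om i j x‖ ^ 2 ≤ m ^ 3 * K ^ 2 * e ^ 4 := by
        refine w5.trans ?_
        gcongr
      linarith
    refine (a2.trans a3).trans ?_
    rw [hK1]
    have hq : (m : ℝ) ^ 3 * K ^ 2 ≤ (m : ℝ) ^ 4 * (K + 1) ^ 2 := by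
      have q1 : (m : ℝ) ^ 3 ≤ (m : ℝ) ^ 4 := pow_le_pow_right₀ hm1' (by norm_num)
      have q2 : K ^ 2 ≤ (K + 1) ^ 2 := by nlinarith
      gcongr
    have he4 : 0 ≤ e ^ 4 := by positivity
    nlinarith [mul_le_mul_of_nonneg_right hq he4]
  have hHc : HasCompactSupport H :=
    HasCompactSupport.intro (isCompact_closedBall (0 : E n) (3 / 4)) hH0
  have hHL : MemLp H 2 (volume : Measure (E n)) := hH.memLp_of_hasCompactSupport hHc
  have hH1 : ∀ x, x ∉ closedBall (0 : E n) 1 → H x = 0 := by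
    intro x hx
    refine hH0 x fun h => hx (closedBall_subset_closedBall (by norm_num) h)
  have main : ∀ k : Fin m, IntegrableOn (fun x => P k j x * ⟪D k x, H x⟫) (ball (0 : E n) 1) ∧
      |∫ x in ball (0 : E n) 1, P k j x * ⟪D k x, H x⟫| ≤
        C * C1 * Real.sqrt A * Real.sqrt (C2 * K1) * e * M := by
    intro k
    obtain ⟨c, hb, hbM⟩ := hC1 (u k) (D k) M hM0 (hS.wb k) (hMor k)
    have hP1 : ∀ᵐ x ∂(volume.restrict (ball (0 : E n) 1)), |P k j x| ≤ 1 := by
      filter_upwards [w1] with x hx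
      exact hx.1 k j
    obtain ⟨c', hg, hgA⟩ := hC2 (P k j) (DP k j) (K1 * e ^ 2) (by positivity) hKe2 (hG.wb k j)
      hP1 (hDP k)
    obtain ⟨hi, hid⟩ := ident hζ hI (u k) (P k j) (D k) (DP k j) H c c' hH hH0 hDF hb hg
      (hS.wb k).d2 (hG.wb k j).ms hP1
    refine ⟨hi, ?_⟩
    rw [hid, abs_neg]
    have ht := hCT _ _ _ H _ (C1 * M) (by positivity) (wc_mono hb (by norm_num)) hbM hHL hH1 hDF
      (wc_mono hg (by norm_num))
    refine ht.trans ?_
    have s1 : Real.sqrt (∫ x, ‖H x‖ ^ 2) ≤ Real.sqrt A := Real.sqrt_le_sqrt hHA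
    have s2 : Real.sqrt (∫ x, ‖dm ζ (fun x => P k j x - c') (DP k j) x‖ ^ 2) ≤
        Real.sqrt (C2 * K1) * e := by
      calc Real.sqrt (∫ x, ‖dm ζ (fun x => P k j x - c') (DP k j) x‖ ^ 2)
          ≤ Real.sqrt (C2 * (K1 * e ^ 2)) := Real.sqrt_le_sqrt hgA
        _ = Real.sqrt (C2 * K1) * e := by
          rw [← mul_assoc, Real.sqrt_mul (by positivity), Real.sqrt_sq he0]
    calc C * (C1 * M) * Real.sqrt (∫ x, ‖H x‖ ^ 2) *
          Real.sqrt (∫ x, ‖dm ζ (fun x => P k j x - c') (DP k j) x‖ ^ 2)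
        ≤ C * (C1 * M) * Real.sqrt A * (Real.sqrt (C2 * K1) * e) := by gcongr
      _ = C * C1 * Real.sqrt A * Real.sqrt (C2 * K1) * e * M := by ring
  have hsum : ∫ x in ball (0 : E n) 1, ⟪ww P D j x, H x⟫ =
      ∑ k, ∫ x in ball (0 : E n) 1, P k j x * ⟪D k x, H x⟫ := by
    rw [← integral_finsetSum _ fun k _ => (main k).1]
    refine integral_congr_ae (Eventually.of_forall fun x => ?_)
    simp only [ww, sum_inner, inner_smul_left]
    simp
  rw [hsum]
  refine (Finset.abs_sum_le_sum_abs _ _).trans ?_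
  refine (Finset.sum_le_sum fun k _ => (main k).2).trans ?_
  rw [Finset.sum_const, Finset.card_univ, Fintype.card_fin, nsmul_eq_mul]
  apply le_of_eq
  ring

end Pool.Agent.H84.RG
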